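import Pool.Agent.PSS.StmtsG
import Pool.Agent.Helper41_AT3.T3A

/-!
# PSS, row MNN: the alternating sums of the images are zero, for an admissible class
-/

open scoped BigOperators

noncomputable section

namespace Pool.Agent.PSS.H16

open Pool.Agent.Helper51_AWC Pool.Agent.Helper79_WRA Pool.Agent.PP Pool.Agent.PP.KF
open Pool.Agent.PP.K9 Pool.Agent.PP.K9.H97 Pool.Agent.PP.H75 Pool.Agent.PP.T3 Pool.Agent.PP.T2
open Pool.Agent.PFD (Ei)

attribute [local instance] Ideal.Quotient.field

theorem mnn (qrx : QrxStmt) (qrj : QrjStmt) (chr : PFD.ChrStmt) (yad : PFD.YadStmt)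
    (bnr : PFD.BnrStmt) (lcj : T3.LcjStmt) : MnnStmt := by
  intro K hAdm hLen ℓ hℓ M _ hM
  have hA : Adm ℓ K := hAdm ℓ Fact.out
  have hF : GoodF ℓ (FF M) := H50.fld ℓ Fact.out M hM
  suffices hmain : ∀ n : ℕ, ∀ (G : Type) [Group G] [Finite G] (e : G → FF M) (V : Subgroup G)
      (γ : G → FF M), Ld ℓ e V γ → ∀ W : Subgroup V, K ℓ V (Ei V γ) W →
      ∀ (A : Type) [Group A] [Finite A], Nat.card A = n → ∀ p : G →* A, Function.Surjective p →
      p.ker ≤ V → p.ker ≠ V → YY ℓ ⊤ (push p e) = 0 by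
    intro G _ _ e V γ h1 W h2 A _ _ p h3 h4 h5
    exact hmain _ G e V γ h1 W h2 A rfl p h3 h4 h5
  intro n
  induction n using Nat.strong_induction_on with
  | _ n ih =>
  intro G _ _ e V γ hL W hS A _ _ hn p hp hK hKV
  have hY : ∀ R : Subgroup G, IsPGroup ℓ R → p.ker ≤ R → p.ker ≠ R → Gd e R →
      Nat.card R < Nat.card V → YQ ℓ e R = 0 := by
    intro R hR hKR hne _ hRV
    have hfid : IsIdem (fun t : Subgroup.normalizer (R : Set G) => br R e t) :=
      (H20.brm ℓ (FF M) hF G R (Subgroup.normalizer (R : Set G)) hR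
        (Subgroup.centralizer_le_normalizer _) le_rfl).2.2 e hL.blk.1
    unfold YQ
    refine yad ℓ (FF M) hF _ _ _ (QuotientGroup.mk'_surjective _) _ hfid ?_
    intro c hc1 hc2
    obtain ⟨g, hg, hL1⟩ := bnr ℓ M hM G e V γ hL R hR c hc1 hc2
    have hL' : Ld ℓ e (conjS g V) (cj g γ) := (lcj ℓ (FF M) hF G e V γ hL g).1
    have hCN : Subgroup.centralizer ((conjS g V : Subgroup G) : Set G) ≤
        Subgroup.normalizer (R : Set G) :=
      (Subgroup.centralizer_le hg).trans (Subgroup.centralizer_le_normalizer _)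
    have hVN : conjS g V ≤ Subgroup.normalizer (R : Set G) := by
      intro x hx
      apply hCN
      rw [Subgroup.mem_centralizer_iff]
      intro y hy
      exact hL'.ab y hy x hx
    obtain ⟨π₁, -, hQ₁⟩ := qrj (FF M) G V γ g
    obtain ⟨π₂, -, hQ₂⟩ := qrx ℓ (FF M) G e _ _ hL' _ hCN
    have hS1 := hA.iso _ _ _ _ _ π₂ hQ₂ (hA.iso _ _ _ _ _ π₁ hQ₁ hS)
    have hRN : R ≤ Subgroup.normalizer (R : Set G) := Subgroup.le_normalizer
    have hcR : Nat.card (R.subgroupOf (Subgroup.normalizer (R : Set G))) = Nat.card R :=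
      Nat.card_congr (Subgroup.subgroupOfEquivOfLe hRN).toEquiv
    have hlt : Nat.card (Subgroup.normalizer (R : Set G) ⧸
        R.subgroupOf (Subgroup.normalizer (R : Set G))) < n := by
      have h1 := (R.subgroupOf
        (Subgroup.normalizer (R : Set G))).card_eq_card_quotient_mul_card_subgroup
      have h2 : Nat.card (Subgroup.normalizer (R : Set G)) ≤ Nat.card G :=
        Subgroup.card_le_card_group _
      have h3 : Nat.card G = Nat.card A * Nat.card p.ker := by
        rw [p.ker.card_eq_card_quotient_mul_card_subgroup]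
        rw [Nat.card_congr (QuotientGroup.quotientKerEquivOfSurjective p hp).toEquiv]
      have h4 : Nat.card p.ker < Nat.card R := by
        refine lt_of_le_of_ne (Subgroup.card_le_of_le hKR) (fun h => hne ?_)
        exact Subgroup.eq_of_le_of_card_ge hKR h.ge
      have h5 : 0 < Nat.card A := Nat.card_pos
      rw [hcR] at h1
      rw [h1, h3, hn] at h2
      rw [hn] at h5
      by_contra h6
      have h7 : n * Nat.card R ≤ Nat.card (Subgroup.normalizer (R : Set G) ⧸
          R.subgroupOf (Subgroup.normalizer (R : Set G))) * Nat.card R :=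
        Nat.mul_le_mul_right _ (not_lt.1 h6)
      have h8 : n * Nat.card p.ker < n * Nat.card R := Nat.mul_lt_mul_of_pos_left h4 h5
      omega
    refine ih _ hlt _ c _ _ hL1 _ hS1 _ rfl _ (QuotientGroup.mk'_surjective _) ?_ ?_
    · rw [QuotientGroup.ker_mk']
      intro x hx
      exact Subgroup.mem_subgroupOf.2 (hg (Subgroup.mem_subgroupOf.1 hx))
    · rw [QuotientGroup.ker_mk']
      intro h
      have h1 : Nat.card ((conjS g V).subgroupOf (Subgroup.normalizer (R : Set G))) =
          Nat.card V := by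
        rw [Nat.card_congr (Subgroup.subgroupOfEquivOfLe hVN).toEquiv,
          Pool.Agent.Helper51_AWC.card_conjS]
      rw [← h, hcR] at h1
      omega
  rw [chr ℓ M hM G e hL.blk V hL.tp A p hp hK hKV hY]
  rw [hLen ℓ M hM G e V γ hL (Or.inr ⟨W, hS⟩), sub_self, mul_zero]

end Pool.Agent.PSS.H16
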